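import Mathlib

/-!
# Self-filling families of subsets of a countable set are resolvable
-/

namespace Pool.Agent.Y708.SF

universe u

/-- `A` fills `B`: for every `U ∈ B` and `x ∈ U` there is `W ∈ A`, `W ≠ U`, with
`x ∈ W ⊆ U`. -/
def Fills {X : Type u} (A B : Set (Set X)) : Prop :=
  ∀ U ∈ B, ∀ x ∈ U, ∃ W ∈ A, W ≠ U ∧ x ∈ W ∧ W ⊆ U

/-- A family that fills itself. -/
def SelfFilling {X : Type u} (F : Set (Set X)) : Prop := Fills F F

/-- `F` is a disjoint union of two subfamilies each of which fills `F`. -/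
def Resolvable {X : Type u} (F : Set (Set X)) : Prop :=
  ∃ F₀ F₁ : Set (Set X), F₀ ∪ F₁ = F ∧ F₀ ∩ F₁ = ∅ ∧ Fills F₀ F ∧ Fills F₁ F

/-- Countably many infinite sets can be split simultaneously. -/
theorem bern {α ι : Type*} [Countable ι] (S : ι → Set α) :
    ∃ f : α → Bool, ∀ i, (S i).Infinite → (∃ a ∈ S i, f a = true) ∧ ∃ b ∈ S i, f b = false := by
  classical
  obtain ⟨e, he⟩ := exists_injective_nat ({i // (S i).Infinite} × Bool)
  have ht : ∀ p : {i // (S i).Infinite} × Bool, ∃ t : Finset α, ↑t ⊆ S p.1.1 ∧ t.card = e p + 1 :=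
    fun p => p.1.2.exists_subset_card_eq _
  choose t ht1 ht2 using ht
  have hall : ∀ s : Finset ({i // (S i).Infinite} × Bool), s.card ≤ (s.biUnion t).card := by
    intro s
    rcases s.eq_empty_or_nonempty with rfl | hs
    · simp
    · obtain ⟨p, hp, hmax⟩ := s.exists_max_image e hs
      have h1 : s.card ≤ e p + 1 := by
        have : (s.image e) ⊆ Finset.range (e p + 1) := by
          intro k hk
          obtain ⟨p', hp', rfl⟩ := Finset.mem_image.1 hk
          exact Finset.mem_range.2 (Nat.lt_succ_of_le (hmax p' hp'))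
        have h2 := Finset.card_le_card this
        rwa [Finset.card_image_of_injective _ he, Finset.card_range] at h2
      have h3 : (t p).card ≤ (s.biUnion t).card :=
        Finset.card_le_card (Finset.subset_biUnion_of_mem t hp)
      rw [ht2] at h3
      exact h1.trans h3
  obtain ⟨G, hG, hGt⟩ := (Finset.all_card_le_biUnion_card_iff_exists_injective t).1 hall
  refine ⟨fun a => decide (∃ i, G (i, true) = a), fun i hi => ⟨⟨G (⟨i, hi⟩, true),
    ht1 (⟨i, hi⟩, true) (hGt _), ?_⟩, G (⟨i, hi⟩, false), ht1 (⟨i, hi⟩, false) (hGt _), ?_⟩⟩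
  · exact decide_eq_true ⟨_, rfl⟩
  · apply decide_eq_false
    rintro ⟨j, hj⟩
    have := hG hj
    simp at this

/-- Every self-filling family of subsets of a countable set is resolvable. -/
theorem resolvable_of_countable {X : Type u} [Countable X] {F : Set (Set X)}
    (hF : SelfFilling F) : Resolvable F := by
  classical
  have hφ : ∀ (U : Set X) (x : X), ∃ W, U ∈ F → x ∈ U → W ∈ F ∧ W ≠ U ∧ x ∈ W ∧ W ⊆ U := by
    intro U x
    by_cases h : U ∈ F ∧ x ∈ U
    · obtain ⟨W, hW⟩ := hF U h.1 x h.2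
      exact ⟨W, fun _ _ => hW⟩
    · exact ⟨U, fun h1 h2 => absurd ⟨h1, h2⟩ h⟩
  choose φ hφ using hφ
  let cl : Set X → Set (Set X) := fun U => Set.range fun l : List X => l.foldl φ U
  have hcl : ∀ U, (cl U).Countable := fun U => Set.countable_range _
  have hself : ∀ U, U ∈ cl U := fun U => ⟨[], rfl⟩
  have hstep : ∀ U W x, W ∈ cl U → φ W x ∈ cl U := by
    rintro U _ x ⟨l, rfl⟩
    exact ⟨l ++ [x], by simp⟩
  let r : Set X → Set X → Prop := WellOrderingRel
  have hwf : WellFounded r := IsWellFounded.wf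
  let ρ : Set X → Set X := fun W => hwf.min {U | W ∈ cl U} ⟨W, hself W⟩
  have hρ1 : ∀ W, W ∈ cl (ρ W) := fun W => hwf.min_mem {U | W ∈ cl U} ⟨W, hself W⟩
  have hρ2 : ∀ W U, W ∈ cl U → ¬ r U (ρ W) := fun W U h =>
    hwf.not_lt_min {U | W ∈ cl U} h
  have hc : ∀ V, Countable {W // ρ W = V} := by
    intro V
    apply Set.Countable.to_subtype
    apply (hcl V).mono
    intro W hW
    have h1 : ρ W = V := hW
    rw [← h1]
    exact hρ1 W
  have hg : ∀ V, ∃ g : Set X → Bool, ∀ (U : {W // ρ W = V}) (x : X),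
      {W' | W' ∈ F ∧ ρ W' = V ∧ W' ≠ U.1 ∧ x ∈ W' ∧ W' ⊆ U.1}.Infinite →
      (∃ a ∈ {W' | W' ∈ F ∧ ρ W' = V ∧ W' ≠ U.1 ∧ x ∈ W' ∧ W' ⊆ U.1}, g a = true) ∧
        ∃ b ∈ {W' | W' ∈ F ∧ ρ W' = V ∧ W' ≠ U.1 ∧ x ∈ W' ∧ W' ⊆ U.1}, g b = false := by
    intro V
    have := hc V
    obtain ⟨g, hg⟩ := bern (fun p : {W // ρ W = V} × X =>
      {W' | W' ∈ F ∧ ρ W' = V ∧ W' ≠ p.1.1 ∧ p.2 ∈ W' ∧ W' ⊆ p.1.1})
    exact ⟨g, fun U x => hg (U, x)⟩
  choose g hg using hg
  let f : Set X → Bool := fun W => g (ρ W) W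
  have key : ∀ V U, ρ U = V → U ∈ F → ∀ x ∈ U,
      (∃ W ∈ F, W ≠ U ∧ x ∈ W ∧ W ⊆ U ∧ f W = true) ∧
        ∃ W ∈ F, W ≠ U ∧ x ∈ W ∧ W ⊆ U ∧ f W = false := by
    intro V
    induction V using hwf.induction with
    | _ V ih =>
    intro U hUV hU x hx
    by_cases hA : ∃ W ∈ F, x ∈ W ∧ W ⊆ U ∧ W ≠ U ∧ r (ρ W) V
    · obtain ⟨W, hW, hxW, hWU, hne, hr⟩ := hA
      obtain ⟨⟨W0, a1, a2, a3, a4, a5⟩, W1, b1, b2, b3, b4, b5⟩ := ih _ hr W rfl hW x hxW
      refine ⟨⟨W0, a1, ?_, a3, a4.trans hWU, a5⟩, W1, b1, ?_, b3, b4.trans hWU, b5⟩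
      · rintro rfl
        exact hne (Set.Subset.antisymm hWU a4)
      · rintro rfl
        exact hne (Set.Subset.antisymm hWU b4)
    · let w : ℕ → Set X := fun n => Nat.rec U (fun _ s => φ s x) n
      have hw0 : w 0 = U := rfl
      have hws : ∀ n, w (n + 1) = φ (w n) x := fun _ => rfl
      have hw : ∀ n, w n ∈ F ∧ x ∈ w n ∧ w n ∈ cl V := by
        intro n
        induction n with
        | zero =>
          refine ⟨hU, hx, ?_⟩
          rw [← hUV]
          exact hρ1 U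
        | succ n ihn =>
          obtain ⟨h1, h2, h3⟩ := ihn
          obtain ⟨h4, -, h5, -⟩ := hφ (w n) x h1 h2
          rw [hws]
          exact ⟨h4, h5, hstep _ _ _ h3⟩
      have hanti : StrictAnti w := by
        apply strictAnti_nat_of_succ_lt
        intro n
        obtain ⟨-, h4, -, h5⟩ := hφ (w n) x (hw n).1 (hw n).2.1
        rw [hws]
        exact lt_of_le_of_ne h5 h4
      have hsub : ∀ n, w (n + 1) ⊆ U := fun n => hanti.antitone (Nat.zero_le (n + 1))
      have hne : ∀ n, w (n + 1) ≠ U := fun n => (hanti (Nat.succ_pos n)).ne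
      have hρw : ∀ n, ρ (w (n + 1)) = V := by
        intro n
        have h1 : ¬ r (ρ (w (n + 1))) V := fun h =>
          hA ⟨w (n + 1), (hw (n + 1)).1, (hw (n + 1)).2.1, hsub n, hne n, h⟩
        have h2 : ¬ r V (ρ (w (n + 1))) := hρ2 _ _ (hw (n + 1)).2.2
        rcases trichotomous_of r (ρ (w (n + 1))) V with h | h | h
        · exact absurd h h1
        · exact h
        · exact absurd h h2
      have hinf : {W' | W' ∈ F ∧ ρ W' = V ∧ W' ≠ U ∧ x ∈ W' ∧ W' ⊆ U}.Infinite := by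
        apply Set.infinite_of_injective_forall_mem (f := fun n => w (n + 1))
        · intro a b hab
          have h1 : w (a + 1) = w (b + 1) := hab
          have h2 : a + 1 = b + 1 := hanti.injective h1
          omega
        · intro n
          exact ⟨(hw (n + 1)).1, hρw n, hne n, (hw (n + 1)).2.1, hsub n⟩
      obtain ⟨⟨W0, a1, a2⟩, W1, b1, b2⟩ := hg V ⟨U, hUV⟩ x hinf
      refine ⟨⟨W0, a1.1, a1.2.2.1, a1.2.2.2.1, a1.2.2.2.2, ?_⟩,
        W1, b1.1, b1.2.2.1, b1.2.2.2.1, b1.2.2.2.2, ?_⟩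
      · show g (ρ W0) W0 = true
        rw [a1.2.1]
        exact a2
      · show g (ρ W1) W1 = false
        rw [b1.2.1]
        exact b2
  refine ⟨{W | W ∈ F ∧ f W = true}, {W | W ∈ F ∧ f W = false}, ?_, ?_, ?_, ?_⟩
  · ext W
    constructor
    · rintro (h | h)
      · exact h.1
      · exact h.1
    · intro h
      cases hf : f W with
      | true => exact Or.inl ⟨h, hf⟩
      | false => exact Or.inr ⟨h, hf⟩
  · ext W
    simp only [Set.mem_inter_iff, Set.mem_ofPred_eq, Set.mem_empty_iff_false, iff_false]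
    rintro ⟨⟨-, h1⟩, -, h2⟩
    rw [h1] at h2
    exact Bool.noConfusion h2
  · intro U hU x hx
    obtain ⟨⟨W, h1, h2, h3, h4, h5⟩, -⟩ := key _ U rfl hU x hx
    exact ⟨W, ⟨h1, h5⟩, h2, h3, h4⟩
  · intro U hU x hx
    obtain ⟨-, W, h1, h2, h3, h4, h5⟩ := key _ U rfl hU x hx
    exact ⟨W, ⟨h1, h5⟩, h2, h3, h4⟩

end Pool.Agent.Y708.SF
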