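import Pool.Agent.H138R3.SFFamily
import Pool.Agent.Y708.SF.Countable

/-!
# Irresolvable self-filling families of compact sets in uncountable Polish spaces
-/

namespace Pool.Agent.Y708.SF

open Pool.Agent.H138R3 Topology

universe u v

theorem selfFilling_image {X : Type u} {Y : Type v} {g : X → Y} (hg : Function.Injective g)
    {F : Set (Set X)} (h : SelfFilling F) : SelfFilling (Set.image g '' F) := by
  rintro _ ⟨U, hU, rfl⟩ _ ⟨x, hx, rfl⟩
  obtain ⟨W, hW, hne, hxW, hWU⟩ := h U hU x hx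
  exact ⟨g '' W, ⟨W, hW, rfl⟩, fun e => hne (hg.image_injective e), ⟨x, hxW, rfl⟩,
    Set.image_mono hWU⟩

theorem resolvable_of_image {X : Type u} {Y : Type v} {g : X → Y} (hg : Function.Injective g)
    {F : Set (Set X)} (h : Resolvable (Set.image g '' F)) : Resolvable F := by
  obtain ⟨F₀, F₁, hU, hD, h0, h1⟩ := h
  have hfill : ∀ G : Set (Set Y), G ⊆ Set.image g '' F → Fills G (Set.image g '' F) →
      Fills {W | W ∈ F ∧ g '' W ∈ G} F := by
    intro G hG hf U hU x hx
    obtain ⟨W', hW', hne, hxW, hWU⟩ := hf (g '' U) ⟨U, hU, rfl⟩ (g x) ⟨x, hx, rfl⟩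
    obtain ⟨W, hW, rfl⟩ := hG hW'
    refine ⟨W, ⟨hW, hW'⟩, fun e => hne (by rw [e]), ?_, ?_⟩
    · obtain ⟨x', hx', e⟩ := hxW
      rwa [← hg e]
    · intro z hz
      obtain ⟨z', hz', e⟩ := hWU ⟨z, hz, rfl⟩
      rwa [← hg e]
  refine ⟨{W | W ∈ F ∧ g '' W ∈ F₀}, {W | W ∈ F ∧ g '' W ∈ F₁}, ?_, ?_,
    hfill F₀ (by rw [← hU]; exact Set.subset_union_left) h0,
    hfill F₁ (by rw [← hU]; exact Set.subset_union_right) h1⟩
  · ext W
    constructor
    · rintro (h | h)
      · exact h.1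
      · exact h.1
    · intro h
      have h2 : g '' W ∈ F₀ ∪ F₁ := by rw [hU]; exact ⟨W, h, rfl⟩
      rcases h2 with h2 | h2
      · exact Or.inl ⟨h, h2⟩
      · exact Or.inr ⟨h, h2⟩
  · rw [Set.eq_empty_iff_forall_notMem]
    rintro W ⟨⟨-, h2⟩, -, h3⟩
    have : g '' W ∈ F₀ ∩ F₁ := ⟨h2, h3⟩
    rw [hD] at this
    exact this

/-- The embedding of the Baire space in a Cantor space. -/
def cc (y : ℕ → ℕ) : ℕ → ℕ → Bool := fun n m => decide (y n = m)

theorem cc_injective : Function.Injective cc := by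
  intro y z h
  ext n
  have h1 := congrFun (congrFun h n) (z n)
  simp only [cc, decide_true, decide_eq_true_eq] at h1
  exact h1

theorem cc_inducing : IsInducing cc := by
  have h1 : IsInducing (fun k : ℕ => (fun m : ℕ => decide (k = m) : ℕ → Bool)) := by
    rw [isInducing_iff_nhds]
    intro k
    rw [nhds_discrete]
    apply le_antisymm
    · rw [Filter.pure_le_iff]
      intro s hs
      obtain ⟨t, ht, hts⟩ := Filter.mem_comap.1 hs
      have h3 := mem_of_mem_nhds ht
      exact hts h3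
    · rw [Filter.le_pure_iff]
      have hc : Continuous (fun f : ℕ → Bool => f k) := continuous_apply k
      refine Filter.mem_comap.2 ⟨{f : ℕ → Bool | f k = true}, ?_, ?_⟩
      · apply IsOpen.mem_nhds
        · exact (isOpen_discrete {true}).preimage hc
        · simp
      · intro j hj
        simpa using hj
  exact IsInducing.piMap fun _ => h1

/-- The closed set attached to a term, in the Cantor space. -/
def Vc (t : Tm (ℕ → Bool)) : Set (ℕ → ℕ → Bool) := closure (cc '' V t)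

theorem mem_Vc (t : Tm (ℕ → Bool)) (y : ℕ → ℕ) : cc y ∈ Vc t ↔ y ∈ V t := by
  have h := cc_inducing.closure_eq_preimage_closure_image (V t)
  rw [(V_closed t).closure_eq] at h
  rw [h]
  rfl

theorem Vc_subset_iff {s t : Tm (ℕ → Bool)} : Vc s ⊆ Vc t ↔ V s ⊆ V t := by
  constructor
  · intro h y hy
    exact (mem_Vc t y).1 (h ((mem_Vc s y).2 hy))
  · intro h
    exact closure_mono (Set.image_mono h)

/-- Cylinders in the Cantor space. -/
def cyl (w : ℕ → Bool) (n : ℕ) : Set (ℕ → Bool) := {v | ∀ i < n, v i = w i}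

theorem isClosed_cyl (w : ℕ → Bool) (n : ℕ) : IsClosed (cyl w n) := by
  simp only [cyl, Set.ofPred_forall]
  refine isClosed_iInter fun i => isClosed_iInter fun _ => ?_
  have hc : Continuous (fun f : ℕ → Bool => f i) := continuous_apply i
  exact (isClosed_discrete {w i}).preimage hc

theorem self_mem_cyl (w : ℕ → Bool) (n : ℕ) : w ∈ cyl w n := fun _ _ => rfl

/-- The irresolvable family in the product of two Cantor spaces. -/
def Fam : Set (Set ((ℕ → ℕ → Bool) × (ℕ → Bool))) :=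
  {U | ∃ t, U = Vc t ×ˢ Set.univ} ∪ {U | ∃ z ∉ Set.range cc, ∃ w n, U = {z} ×ˢ cyl w n}

theorem Fam_compact : ∀ U ∈ Fam, IsCompact U := by
  rintro U (⟨t, rfl⟩ | ⟨z, -, w, n, rfl⟩)
  · exact (isClosed_closure.prod isClosed_univ).isCompact
  · exact (isClosed_singleton.prod (isClosed_cyl w n)).isCompact

theorem Fam_selfFilling : SelfFilling Fam := by
  rintro U (⟨t, rfl⟩ | ⟨z, hz, w, n, rfl⟩) ⟨a, b⟩ hab
  · by_cases ha : a ∈ Set.range cc
    · obtain ⟨y, rfl⟩ := ha
      have hy : y ∈ V t := (mem_Vc t y).1 hab.1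
      obtain ⟨s, h1, h2, h3⟩ := V_fill t y hy
      refine ⟨Vc s ×ˢ Set.univ, Or.inl ⟨s, rfl⟩, ?_, ⟨(mem_Vc s y).2 h2, trivial⟩,
        Set.prod_mono (Vc_subset_iff.2 h3) subset_rfl⟩
      intro e
      apply h1
      apply Set.Subset.antisymm h3
      rw [← Vc_subset_iff]
      intro c hc
      have : (c, b) ∈ Vc s ×ˢ (Set.univ : Set (ℕ → Bool)) := by
        rw [e]
        exact ⟨hc, trivial⟩
      exact this.1
    · refine ⟨{a} ×ˢ cyl b 0, Or.inr ⟨a, ha, b, 0, rfl⟩, ?_, ⟨rfl, self_mem_cyl b 0⟩, ?_⟩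
      · intro e
        have hne : (V t).Nonempty := by
          by_contra hemp
          rw [Set.not_nonempty_iff_eq_empty] at hemp
          have h1 : a ∈ Vc t := hab.1
          rw [Vc, hemp, Set.image_empty, closure_empty] at h1
          exact h1
        obtain ⟨y, hy⟩ := hne
        have h2 : (cc y, b) ∈ ({a} : Set (ℕ → ℕ → Bool)) ×ˢ cyl b 0 := by
          rw [e]
          exact ⟨(mem_Vc t y).2 hy, trivial⟩
        have h3 : cc y = a := h2.1
        exact ha ⟨y, h3⟩
      · rintro ⟨a', b'⟩ ⟨h1, -⟩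
        have h3 : a' = a := h1
        subst h3
        exact ⟨hab.1, trivial⟩
  · have h1 : a = z := hab.1
    subst h1
    have hb : ∀ i < n, b i = w i := hab.2
    refine ⟨{a} ×ˢ cyl b (n + 1), Or.inr ⟨a, hz, b, n + 1, rfl⟩, ?_,
      ⟨rfl, self_mem_cyl b (n + 1)⟩, ?_⟩
    · intro e
      have h2 : (a, Function.update b n (!b n)) ∈ ({a} : Set (ℕ → ℕ → Bool)) ×ˢ cyl w n := by
        refine ⟨rfl, fun i hi => ?_⟩
        show Function.update b n (!b n) i = w i
        rw [Function.update_of_ne (by omega), hb i hi]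
      rw [← e] at h2
      have h3 : Function.update b n (!b n) n = b n := h2.2 n (Nat.lt_succ_self n)
      rw [Function.update_self] at h3
      cases hbn : b n <;> rw [hbn] at h3 <;> exact Bool.noConfusion h3
    · refine Set.prod_mono subset_rfl fun v hv i hi => ?_
      rw [hv i (by omega), hb i hi]

theorem Fam_irresolvable : ¬ Resolvable Fam := by
  classical
  rintro ⟨F₀, F₁, hU, hD, h0, h1⟩
  obtain ⟨r, y, hy, hbad⟩ := V_bad (fun t => decide (Vc t ×ˢ Set.univ ∈ F₀))
  let w : ℕ → Bool := fun _ => true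
  have hmem : (cc y, w) ∈ Vc r ×ˢ (Set.univ : Set (ℕ → Bool)) := ⟨(mem_Vc r y).2 hy, trivial⟩
  have hFr : Vc r ×ˢ (Set.univ : Set (ℕ → Bool)) ∈ Fam := Or.inl ⟨r, rfl⟩
  have key : ∀ W ∈ Fam, (cc y, w) ∈ W → W ⊆ Vc r ×ˢ (Set.univ : Set (ℕ → Bool)) →
      ∃ t, W = Vc t ×ˢ Set.univ ∧
        (Vc t ×ˢ (Set.univ : Set (ℕ → Bool)) ∈ F₀ ↔ Vc r ×ˢ (Set.univ : Set (ℕ → Bool)) ∈ F₀) := by
    rintro W (⟨t, rfl⟩ | ⟨z, hz, w', n, rfl⟩) hyW hWr
    · refine ⟨t, rfl, ?_⟩
      have h2 : V t ⊆ V r := by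
        rw [← Vc_subset_iff]
        intro c hc
        exact (hWr (show (c, w) ∈ Vc t ×ˢ (Set.univ : Set (ℕ → Bool)) from ⟨hc, trivial⟩)).1
      have h3 := hbad t ((mem_Vc t y).1 hyW.1) h2
      simpa using h3
    · have h2 : cc y = z := hyW.1
      exact absurd ⟨y, h2⟩ hz
  by_cases hr : Vc r ×ˢ (Set.univ : Set (ℕ → Bool)) ∈ F₀
  · obtain ⟨W, hW, -, hyW, hWr⟩ := h1 _ hFr _ hmem
    have hWF : W ∈ Fam := by rw [← hU]; exact Or.inr hW
    obtain ⟨t, rfl, ht⟩ := key W hWF hyW hWr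
    have : Vc t ×ˢ (Set.univ : Set (ℕ → Bool)) ∈ F₀ ∩ F₁ := ⟨ht.2 hr, hW⟩
    rw [hD] at this
    exact this
  · obtain ⟨W, hW, -, hyW, hWr⟩ := h0 _ hFr _ hmem
    have hWF : W ∈ Fam := by rw [← hU]; exact Or.inl hW
    obtain ⟨t, rfl, ht⟩ := key W hWF hyW hWr
    exact hr (ht.1 hW)

/-- The product of the two Cantor spaces embeds in the Cantor space. -/
theorem exists_embedding : ∃ h : (ℕ → ℕ → Bool) × (ℕ → Bool) → (ℕ → Bool),
    Continuous h ∧ Function.Injective h := by
  obtain ⟨e⟩ : Nonempty ((ℕ × ℕ) ⊕ ℕ ≃ ℕ) := ⟨Denumerable.eqv _⟩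
  refine ⟨fun p n => Sum.elim (fun q : ℕ × ℕ => p.1 q.1 q.2) p.2 (e.symm n), ?_, ?_⟩
  · refine continuous_pi fun n => ?_
    cases e.symm n with
    | inl q =>
      exact (continuous_apply q.2).comp ((continuous_apply q.1).comp continuous_fst)
    | inr k =>
      exact (continuous_apply k).comp continuous_snd
  · rintro ⟨a, b⟩ ⟨a', b'⟩ h
    refine Prod.ext ?_ ?_
    · funext i j
      have := congrFun h (e (Sum.inl (i, j)))
      simpa using this
    · funext i
      have := congrFun h (e (Sum.inr i))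
      simpa using this

/-- Every uncountable Polish space has an irresolvable self-filling family of compact sets. -/
theorem exists_irresolvable {X : Type u} [TopologicalSpace X] [PolishSpace X]
    (hX : ¬ Countable X) :
    ∃ F : Set (Set X), (∀ U ∈ F, IsCompact U) ∧ SelfFilling F ∧ ¬ Resolvable F := by
  have hunc : ¬ (Set.univ : Set X).Countable := by
    rwa [Set.countable_univ_iff]
  obtain ⟨f, -, hf1, hf2⟩ := isClosed_univ.exists_nat_bool_injection_of_not_countable hunc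
  obtain ⟨h, hh1, hh2⟩ := exists_embedding
  refine ⟨Set.image (f ∘ h) '' Fam, ?_, selfFilling_image (hf2.comp hh2) Fam_selfFilling,
    fun hr => Fam_irresolvable (resolvable_of_image (hf2.comp hh2) hr)⟩
  rintro _ ⟨U, hU, rfl⟩
  exact (Fam_compact U hU).image (hf1.comp hh1)

end Pool.Agent.Y708.SF
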